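import Mathlib
import Pool.Agent.H8.Card2

namespace Pool.Agent.Results.MP_2712b7_lc.Neg

open Pool.Agent.H8.Card

theorem result : dNum ≤ uNum → ¬ Polar dNum := not_polar

end Pool.Agent.Results.MP_2712b7_lc.Neg
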